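import Pool.Agent.Helper93.KS.St

/-!
# Project KS (MP_77e955_nt), module WL: the lower step
-/

set_option autoImplicit false

noncomputable section

namespace Pool.Agent.Helper26.KS

open Finset Filter Topology
open Pool.Agent.Helper93.KS
open Pool.Agent.Helper15.AB (ee Kl StDB StMT)
open Pool.Agent.Helper9.TW (gm Qs fm StMER StC9)
open Pool.Agent.Helper18.TR (StLevel)
open Pool.Agent.Helper93.KP (gk vk tk rn gn TK qk StC8P StVLP StRTS StWEI)

private theorem gm_nn (j : ℕ) (hj : 1 ≤ j) : 0 ≤ gm j := by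
  unfold gm
  refine Real.log_nonneg ?_
  have hp : (0 : ℝ) < j := by exact_mod_cast hj
  rw [le_div_iff₀ hp]
  linarith

private theorem gm_ub (j : ℕ) (hj : 1 ≤ j) : gm j ≤ 1 / (j : ℝ) := by
  unfold gm
  have hp : (0 : ℝ) < j := by exact_mod_cast hj
  have h := Real.log_le_sub_one_of_pos (show (0 : ℝ) < ((j : ℝ) + 1) / j by positivity)
  have e : ((j : ℝ) + 1) / j - 1 = 1 / j := by
    field_simp
    ring
  linarith

private theorem gm_third (j : ℕ) (hj : 3 ≤ j) : gm j ≤ 1 / 3 := by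
  refine (gm_ub j (by omega)).trans ?_
  have : (3 : ℝ) ≤ j := by exact_mod_cast hj
  exact one_div_le_one_div_of_le (by norm_num) this

private theorem kg (κ j : ℕ) (hκ : κ ≤ 2) (hj : 3 ≤ j) : 0 ≤ (κ : ℝ) * gm j ∧ (κ : ℝ) * gm j ≤ 2 / 3 := by
  have h1 := gm_nn j (by omega)
  have h2 := gm_third j hj
  have h3 : (κ : ℝ) ≤ 2 := by exact_mod_cast hκ
  have h4 : (0 : ℝ) ≤ κ := Nat.cast_nonneg κ
  exact ⟨mul_nonneg h4 h1, by nlinarith⟩

private theorem Pq_succ (a : ℕ) (ω : ℝ) (j0 j : ℕ) (hj : j0 ≤ j) : Pq a ω j0 (j + 1) = Pq a ω j0 j ∪ bq a ω j := by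
  classical
  ext p
  simp only [Pq, Finset.mem_biUnion, Finset.mem_union, Finset.mem_Ico]
  constructor
  · rintro ⟨i, ⟨h1, h2⟩, h3⟩
    rcases Nat.lt_or_ge i j with h | h
    · exact Or.inl ⟨i, ⟨h1, h⟩, h3⟩
    · have : i = j := by omega
      subst this
      exact Or.inr h3
  · rintro (⟨i, ⟨h1, h2⟩, h3⟩ | h)
    · exact ⟨i, ⟨h1, by omega⟩, h3⟩
    · exact ⟨j, ⟨hj, by omega⟩, h⟩

private theorem idq_succ (a : ℕ) (ω : ℝ) (j0 j n : ℕ) (hj : j0 ≤ j) :
    idq a ω j0 (j + 1) n = if ejq a ω j n = 0 then idq a ω j0 j n else 0 := by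
  classical
  unfold idq ejq
  rw [Pq_succ a ω j0 j hj]
  by_cases h1 : ∃ p ∈ Pq a ω j0 j, p ∣ n
  · rw [if_pos h1, if_pos]
    · split_ifs <;> rfl
    · obtain ⟨p, hp, hd⟩ := h1
      exact ⟨p, Finset.mem_union_left _ hp, hd⟩
  · rw [if_neg h1]
    by_cases h2 : ∃ p ∈ bq a ω j, p ∣ n
    · obtain ⟨p, hp, hd⟩ := h2
      rw [if_pos ⟨p, Finset.mem_union_right _ hp, hd⟩, if_neg]
      rw [Finset.card_eq_zero]
      intro h
      have : p ∈ (bq a ω j).filter (fun p => p ∣ n) := Finset.mem_filter.2 ⟨hp, hd⟩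
      rw [h] at this
      simp at this
    · rw [if_neg, if_pos]
      · rw [Finset.card_eq_zero, Finset.filter_eq_empty_iff]
        intro p hp hd
        exact h2 ⟨p, hp, hd⟩
      · rintro ⟨p, hp, hd⟩
        rcases Finset.mem_union.1 hp with h | h
        · exact h1 ⟨p, h, hd⟩
        · exact h2 ⟨p, h, hd⟩

private theorem idq_nn (a : ℕ) (ω : ℝ) (j0 j n : ℕ) : 0 ≤ idq a ω j0 j n := by
  unfold idq; split_ifs <;> norm_num

private theorem Gb_nn (a : ℕ) (ω : ℝ) (g : ℕ → ℝ) (i : ℕ) (hg : ∀ p, 0 ≤ g p) : 0 ≤ Gb a ω g i :=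
  Finset.sum_nonneg fun p _ => hg p

private theorem mg_sub (a : ℕ) (g l₁ l₂ : ℕ → ℝ) : mg a g (fun q => l₁ q - l₂ q) = mg a g l₁ - mg a g l₂ := by
  unfold mg
  rw [← Finset.sum_sub_distrib]
  exact Finset.sum_congr rfl fun q _ => by ring

private theorem Vq_succ (a : ℕ) (ω : ℝ) (g : ℕ → ℝ) (j0 j : ℕ) (hj : j0 ≤ j) :
    Vq a ω g j0 (j + 1) = Vq a ω g j0 j * (1 - Gb a ω g j) := by
  unfold Vq
  rw [Finset.prod_Ico_succ_top hj]

private theorem Vq_nn (κ a : ℕ) (ω η : ℝ) (j0 j : ℕ) (g : ℕ → ℝ) (hκ : κ ≤ 2) (h0 : 3 ≤ j0) (hη : η ≤ 1 / 6)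
    (h : AD κ a ω η j0 j g) : 0 ≤ Vq a ω g j0 j := by
  refine Finset.prod_nonneg fun i hi => ?_
  have h1 := h.2 i hi
  have h2 := (kg κ i hκ (by have := Finset.mem_Ico.1 hi; omega)).2
  linarith

theorem hWL (hB : StBMQ) : StWL := by
  intro κ ω j0 N j l u hκ hω hj0 hj hN hNω hl hu hL hU
  obtain ⟨B₁, Lam₁, hB1, hW1, hD1, hT1⟩ := hL
  obtain ⟨B₂, Lam₂, hB2, hW2, hD2, hT2⟩ := hU
  have hcast : ((N - (j + 1) : ℕ) : ℝ) = (N : ℝ) - (j + 1) := by
    rw [Nat.cast_sub (by omega)]; push_cast; ring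
  have hx2 : 0 ≤ ((N - (j + 1) : ℕ) : ℝ) * ω := by positivity
  have hsum : ((N - (j + 1) : ℕ) : ℝ) * ω + ((j : ℝ) + 1) * ω = (N : ℝ) * ω := by
    rw [hcast]; ring
  have hBM := fun (a : ℕ) (g : ℕ → ℝ) (ha : 2 ≤ a) (h : SW a ω j0 j (((N - (j + 1) : ℕ) : ℝ) * ω) B₂ (Lam₂ a)) =>
    hB a j0 j j ω (((N - (j + 1) : ℕ) : ℝ) * ω) B₂ (Lam₂ a) g ha hω hB2 hx2 hj le_rfl (by rw [hsum]; exact hNω) h
  refine ⟨B₁ + B₂, fun a q => Lam₁ a q - bmq a ω j (Lam₂ a) q, by positivity, ?_, ?_, ?_⟩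
  · filter_upwards [hW1, hW2, eventually_ge_atTop 2] with a h1 h2 ha
    have g2 := (hBM a (fun _ => 0) ha h2).1
    rw [hsum] at g2
    intro q
    obtain ⟨b1, c1⟩ := h1 q
    obtain ⟨b2, c2⟩ := g2 q
    refine ⟨(abs_sub _ _).trans (add_le_add b1 b2), ?_⟩
    intro hne
    by_cases hz : Lam₁ a q = 0
    · have hz2 : bmq a ω j (Lam₂ a) q ≠ 0 := by
        intro h
        exact hne (by simp [hz, h])
      exact c2 hz2
    · obtain ⟨d1, d2, d3⟩ := c1 hz
      refine ⟨d1, ?_, d3⟩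
      intro p hp hd
      rw [Pq_succ a ω j0 j hj]
      exact Finset.mem_union_left _ (d2 p hp hd)
  · filter_upwards [hW2, hD1, hD2, eventually_ge_atTop 2] with a h2 d1 d2 ha
    intro n hn
    have i1 := (hBM a (fun _ => 0) ha h2).2.2 n hn
    rw [Finset.sum_sub_distrib, i1]
    have e1 := d1 n hn
    have e2 := d2 n hn
    have hI0 := idq_nn a ω j0 j n
    rw [idq_succ a ω j0 j n hj]
    set e : ℕ := ejq a ω j n with he
    set I : ℝ := idq a ω j0 j n with hId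
    rcases Nat.eq_zero_or_pos e with h0 | h0
    · rw [if_pos h0, h0]
      push_cast
      linarith
    · rw [if_neg (by omega)]
      have he1 : (1 : ℝ) ≤ e := by exact_mod_cast h0
      nlinarith [mul_le_mul_of_nonneg_left e2 (by linarith : (0 : ℝ) ≤ e),
        mul_nonneg (by linarith : (0 : ℝ) ≤ (e : ℝ) - 1) hI0]
  · intro ε hε
    obtain ⟨hc0, hc1⟩ := kg κ j hκ (by omega)
    set c : ℝ := (κ : ℝ) * gm j with hc
    set l' : ℝ := (l + c * u) / (1 - c) with hl'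
    have h1c : 0 < 1 - c := by linarith
    have hl'0 : 0 ≤ l' := by positivity
    have hl'e : l' * (1 - c) = l + c * u := by
      rw [hl']
      field_simp
    obtain ⟨η₁, hη1, hA1⟩ := hT1 (ε / 24) (by positivity)
    obtain ⟨η₂, hη2, hA2⟩ := hT2 (ε / 24) (by positivity)
    refine ⟨min (min η₁ η₂) (min (1 / 6) (ε / (12 * (u + l' + 1)))), by positivity, ?_⟩
    set η : ℝ := min (min η₁ η₂) (min (1 / 6) (ε / (12 * (u + l' + 1)))) with hη
    have hηpos : 0 < η := by positivity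
    have k1 : η ≤ η₁ := (min_le_left _ _).trans (min_le_left _ _)
    have k2 : η ≤ η₂ := (min_le_left _ _).trans (min_le_right _ _)
    have k3 : η ≤ 1 / 6 := (min_le_right _ _).trans (min_le_left _ _)
    have k4 : η ≤ ε / (12 * (u + l' + 1)) := (min_le_right _ _).trans (min_le_right _ _)
    have k5 : η * (u + l') ≤ ε / 12 := by
      have : η * (12 * (u + l' + 1)) ≤ ε := by
        rwa [le_div_iff₀ (by positivity)] at k4
      nlinarith
    filter_upwards [hA1, hA2, hW2, eventually_ge_atTop 2] with a A1 A2 h2 ha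
    intro g hg
    have hg' : AD κ a ω η j0 j g := by
      refine ⟨hg.1, fun i hi => hg.2 i ?_⟩
      have := Finset.mem_Ico.1 hi
      exact Finset.mem_Ico.2 ⟨this.1, by omega⟩
    have m1 := A1 g ⟨hg'.1, fun i hi => (hg'.2 i hi).trans (by linarith)⟩
    have m2 := A2 g ⟨hg'.1, fun i hi => (hg'.2 i hi).trans (by linarith)⟩
    have hV := Vq_nn κ a ω η j0 j g hκ hj0 k3 hg'
    have hG0 := Gb_nn a ω g j hg.1
    have hG1 : Gb a ω g j ≤ c + η := hg.2 j (Finset.mem_Ico.2 ⟨hj, by omega⟩)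
    have e1 : mg a g (fun q => Lam₁ a q - bmq a ω j (Lam₂ a) q) =
        mg a g (Lam₁ a) - Gb a ω g j * mg a g (Lam₂ a) := by
      rw [mg_sub a g (Lam₁ a) (bmq a ω j (Lam₂ a)), (hBM a g ha h2).2.1]
    rw [e1, Vq_succ a ω g j0 j hj]
    set V : ℝ := Vq a ω g j0 j with hVd
    set G : ℝ := Gb a ω g j with hGd
    have key : l + ε / 24 + G * (u + ε / 24) ≤ (l' + ε) * (1 - G) := by
      have q1 : (l' + ε) * (1 - (c + η)) ≤ (l' + ε) * (1 - G) :=
        mul_le_mul_of_nonneg_left (by linarith) (by linarith)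
      have q2 : G * (u + ε / 24) ≤ (c + η) * (u + ε / 24) := mul_le_mul_of_nonneg_right hG1 (by linarith)
      have q3 : ε * (1 / 6) ≤ ε * (1 - (c + η)) := mul_le_mul_of_nonneg_left (by linarith) hε.le
      have q4 : (c + η) * (ε / 24) ≤ 1 * (ε / 24) := mul_le_mul_of_nonneg_right (by linarith) (by linarith)
      nlinarith
    have s1 : G * mg a g (Lam₂ a) ≤ G * ((1 + u + ε / 24) * V) := mul_le_mul_of_nonneg_left m2 hG0
    have s2 := mul_le_mul_of_nonneg_right key hV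
    nlinarith

end Pool.Agent.Helper26.KS
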